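import Pool.Agent.Q105.FR.Cosp

namespace Pool.Agent.Q105.FR

open Matrix Finset Polynomial

variable {V : Type*} [Fintype V] [DecidableEq V]

/-- The relation between the entries at `a` and `b` of eigenvectors that proper fractional
revival forces. -/
def Rel (A : Matrix V V ℝ) (a b : V) (τ : ℝ) (α β : ℂ) : Prop :=
  ∀ (θ : ℝ) (w : V → ℝ), A *ᵥ w = θ • w →
    Complex.exp ((τ * θ : ℝ) * Complex.I) * w a = α * w a + β * w b

theorem flip_eig (A : Matrix V V ℝ) (s : V → ℝ) (hs : ∀ u, s u = 1 ∨ s u = -1)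
    (hA : ∀ u v, s u = s v → A u v = 0) (θ : ℝ) (w : V → ℝ) (h : A *ᵥ w = θ • w) :
    A *ᵥ (fun v => s v * w v) = (-θ) • (fun v => s v * w v) := by
  ext u
  have h1 : ∑ v, A u v * w v = θ * w u := by
    have := congrFun h u
    simpa [Matrix.mulVec, dotProduct] using this
  have h2 : (A *ᵥ (fun v => s v * w v)) u = ∑ v, A u v * (s v * w v) := by
    simp [Matrix.mulVec, dotProduct]
  have h3 : ∑ v, A u v * (s v * w v) = - s u * ∑ v, A u v * w v := by
    rw [Finset.mul_sum]
    refine Finset.sum_congr rfl fun v _ => ?_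
    by_cases e : s u = s v
    · rw [hA u v e]; ring
    · have : s v = - s u := by
        rcases hs u with h1 | h1 <;> rcases hs v with h2 | h2 <;> rw [h1, h2] at e ⊢ <;> simp at e ⊢
      rw [this]; ring
  rw [h2, h3, h1]
  simp only [Pi.smul_apply, smul_eq_mul]
  ring

theorem sum_sq (A : Matrix V V ℝ) (D : Diag A) (u : V) : ∑ j, D.q j u ^ 2 = 1 := by
  have := D.complete u u
  simp only [if_true] at this
  rw [← this]
  exact Finset.sum_congr rfl fun j _ => by ring

/-- Odd distance: the entries at `a` and `b` have the same absolute value. -/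
theorem odd_case (A : Matrix V V ℝ) (D : Diag A) (a b : V) (τ : ℝ) (α β : ℂ) (hβ : β ≠ 0)
    (hR : Rel A a b τ α β) (s : V → ℝ) (hs : ∀ u, s u = 1 ∨ s u = -1)
    (hA : ∀ u v, s u = s v → A u v = 0) (ha : s a = 1) (hb : s b = -1) (j : V) :
    D.q j a ^ 2 = D.q j b ^ 2 := by
  have key : ∀ j, (Real.cos (τ * D.th j) : ℂ) * D.q j a = α * D.q j a ∧
      (Real.sin (τ * D.th j) : ℂ) * Complex.I * D.q j a = β * D.q j b := by
    intro j
    have h1 := hR (D.th j) (D.q j) (D.eig j)
    have h2 := hR (-D.th j) _ (flip_eig A s hs hA (D.th j) (D.q j) (D.eig j))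
    have e1 : Complex.exp ((τ * D.th j : ℝ) * Complex.I)
        = Real.cos (τ * D.th j) + Real.sin (τ * D.th j) * Complex.I := by
      rw [Complex.exp_mul_I]; push_cast; ring
    have e2 : Complex.exp ((τ * -D.th j : ℝ) * Complex.I)
        = Real.cos (τ * D.th j) - Real.sin (τ * D.th j) * Complex.I := by
      rw [Complex.exp_mul_I]
      have : ((τ * -D.th j : ℝ) : ℂ) = -((τ * D.th j : ℝ) : ℂ) := by push_cast; ring
      rw [this, Complex.cos_neg, Complex.sin_neg]; push_cast; ring
    rw [e1] at h1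
    rw [e2] at h2
    simp only [ha, hb] at h2
    push_cast at h1 h2 ⊢
    constructor
    · linear_combination (h1 + h2) / 2
    · linear_combination (h1 - h2) / 2
  -- `α` is real
  obtain ⟨j0, hj0⟩ : ∃ j, D.q j a ≠ 0 := by
    by_contra hne
    push Not at hne
    have := sum_sq A D a
    simp [hne] at this
  set c := Real.cos (τ * D.th j0) with hc
  have hα : α = (c : ℂ) := by
    have := (key j0).1
    have h0 : ((D.q j0 a : ℝ) : ℂ) ≠ 0 := by exact_mod_cast hj0
    exact (mul_right_cancel₀ h0 this).symm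
  have hcos : ∀ j, D.q j a ≠ 0 → Real.cos (τ * D.th j) = c := by
    intro j hj
    have := (key j).1
    have h0 : ((D.q j a : ℝ) : ℂ) ≠ 0 := by exact_mod_cast hj
    have h2 := mul_right_cancel₀ h0 this
    rw [hα] at h2
    exact_mod_cast h2
  have hnorm : ∀ j, (1 - c ^ 2) * D.q j a ^ 2 = ‖β‖ ^ 2 * D.q j b ^ 2 := by
    intro j
    have h1 := (key j).2
    have h2 := congrArg (fun z : ℂ => ‖z‖ ^ 2) h1
    simp only [norm_mul, Complex.norm_I, mul_one, mul_pow, Complex.norm_real, Real.norm_eq_abs,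
      sq_abs] at h2
    rw [← h2]
    by_cases hj : D.q j a = 0
    · simp [hj]
    · rw [← hcos j hj, Real.sin_sq]
  have hsum : 1 - c ^ 2 = ‖β‖ ^ 2 := by
    have h1 : ∑ j, (1 - c ^ 2) * D.q j a ^ 2 = ∑ j, ‖β‖ ^ 2 * D.q j b ^ 2 :=
      Finset.sum_congr rfl fun j _ => hnorm j
    rw [← Finset.mul_sum, ← Finset.mul_sum, sum_sq, sum_sq] at h1
    linarith
  have hb2 : (0 : ℝ) < ‖β‖ ^ 2 := by positivity
  have := hnorm j
  rw [hsum] at this
  exact mul_left_cancel₀ (ne_of_gt hb2) this

end Pool.Agent.Q105.FR
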