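import Pool.Agent.Q105.FR.Spec

namespace Pool.Agent.Q105.FR

open Matrix Finset Polynomial

variable {V : Type*} [Fintype V] [DecidableEq V]

theorem adjugate_diag (M : Matrix V V ℝ) (a : V) :
    M.adjugate a a = (M.submatrix (fun x : {x : V // x ≠ a} => x.1) (fun x => x.1)).det := by
  rw [Matrix.adjugate_apply]
  rw [Matrix.twoBlockTriangular_det _ (fun i => i ≠ a)]
  · have h1 : (toSquareBlockProp (M.updateRow a (Pi.single a 1)) fun i => ¬ i ≠ a).det = 1 := by
      let _i : Unique {i : V // ¬ i ≠ a} :=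
        ⟨⟨⟨a, by simp⟩⟩, by rintro ⟨x, hx⟩; simp at hx; simp [hx]⟩
      rw [Matrix.det_unique]
      have hd : ((default : {i : V // ¬ i ≠ a}) : V) = a := rfl
      simp [toSquareBlockProp, Matrix.toBlock, hd]
    rw [h1, mul_one]
    congr 1
    ext ⟨i, hi⟩ ⟨j, hj⟩
    simp [toSquareBlockProp, Matrix.toBlock, Matrix.updateRow_apply, hi]
  · intro i hi j hj
    have : i = a := by simpa using hi
    subst this
    simp [hj]

theorem Diag.adjugate_eq {A : Matrix V V ℝ} (D : Diag A) (x : ℝ) (hx : ∀ j, x ≠ D.th j) (a : V) :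
    (x • (1 : Matrix V V ℝ) - A).adjugate a a
      = (x • (1 : Matrix V V ℝ) - A).det * ∑ j, D.q j a ^ 2 / (x - D.th j) := by
  set M := x • (1 : Matrix V V ℝ) - A with hM
  let B : Matrix V V ℝ := fun u v => ∑ j, D.q j u * (D.q j v / (x - D.th j))
  have h1 : ∀ j u, ∑ w, M u w * D.q j w = (x - D.th j) * D.q j u := by
    intro j u
    have := congrFun (D.eig j) u
    have h2 : ∑ w, A u w * D.q j w = D.th j * D.q j u := by
      simpa [Matrix.mulVec, dotProduct] using this
    have h3 : ∑ w, M u w * D.q j w = ∑ w, (x * ((1 : Matrix V V ℝ) u w * D.q j w) - A u w * D.q j w) := by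
      refine Finset.sum_congr rfl fun w _ => ?_
      simp [hM]; ring
    rw [h3, Finset.sum_sub_distrib, h2, ← Finset.mul_sum]
    simp [Matrix.one_apply]
    ring
  have hMB : M * B = 1 := by
    ext u v
    rw [Matrix.mul_apply, Matrix.one_apply, ← D.complete u v]
    calc ∑ w, M u w * B w v = ∑ w, ∑ j, (M u w * D.q j w) * (D.q j v / (x - D.th j)) := by
          refine Finset.sum_congr rfl fun w _ => ?_
          simp only [B]
          rw [Finset.mul_sum]
          exact Finset.sum_congr rfl fun j _ => by ring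
      _ = ∑ j, D.q j u * D.q j v := by
          rw [Finset.sum_comm]
          refine Finset.sum_congr rfl fun j _ => ?_
          rw [← Finset.sum_mul, h1]
          have : x - D.th j ≠ 0 := sub_ne_zero.mpr (hx j)
          field_simp
  have h4 : M.adjugate = M.det • B := by
    calc M.adjugate = M.adjugate * (M * B) := by rw [hMB, mul_one]
      _ = (M.adjugate * M) * B := by rw [mul_assoc]
      _ = M.det • B := by rw [Matrix.adjugate_mul, Matrix.smul_mul, one_mul]
  rw [h4, Matrix.smul_apply, smul_eq_mul]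
  congr 1
  exact Finset.sum_congr rfl fun j _ => by ring

/-- The matrix with row and column `a` removed. -/
def del (A : Matrix V V ℝ) (a : V) : Matrix {x : V // x ≠ a} {x : V // x ≠ a} ℝ :=
  A.submatrix (fun x => x.1) (fun x => x.1)

theorem eval_charpoly_del (A : Matrix V V ℝ) (a : V) (x : ℝ) :
    (del A a).charpoly.eval x = (x • (1 : Matrix V V ℝ) - A).adjugate a a := by
  rw [adjugate_diag, Matrix.eval_charpoly]
  congr 1
  ext i j
  simp [del, Matrix.scalar_apply, Matrix.diagonal_apply, Matrix.one_apply, Subtype.ext_iff]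

theorem charpoly_del_eq {A : Matrix V V ℝ} (D : Diag A) (a b : V)
    (h : ∀ j, D.q j a ^ 2 = D.q j b ^ 2) : (del A a).charpoly = (del A b).charpoly := by
  apply Polynomial.eq_of_infinite_eval_eq
  have hinf : (Set.range D.th)ᶜ.Infinite := (Set.finite_range D.th).infinite_compl
  refine hinf.mono ?_
  intro x hx
  have hx' : ∀ j, x ≠ D.th j := fun j e => hx ⟨j, e.symm⟩
  simp only [Set.mem_ofPred_eq]
  rw [eval_charpoly_del, eval_charpoly_del, D.adjugate_eq x hx', D.adjugate_eq x hx']
  simp only [h]

end Pool.Agent.Q105.FR
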