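import Pool.Agent.Q105.FR.Core

namespace Pool.Agent.Q105.FR

open Matrix Finset Polynomial

variable {V : Type*} [Fintype V] [DecidableEq V]

/-- `c² + 4` is a square only for `c = 0`. -/
theorem sq_add_four (c m : ℤ) (h : m * m = c * c + 4) : c = 0 := by
  have h' : |m| * |m| = |c| * |c| + 4 := by rw [abs_mul_abs_self, abs_mul_abs_self, h]
  have hc : 0 ≤ |c| := abs_nonneg c
  have hm : 0 ≤ |m| := abs_nonneg m
  have h1 : |c| < |m| := by nlinarith
  obtain ⟨k, hk⟩ : ∃ k, |m| = |c| + k := ⟨|m| - |c|, by ring⟩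
  have hk1 : 1 ≤ k := by omega
  rw [hk] at h'
  have h2 : 2 * |c| * k + k * k = 4 := by nlinarith
  have hk2 : k ≤ 2 := by nlinarith
  have : k = 1 ∨ k = 2 := by omega
  rcases this with rfl | rfl
  · omega
  · have : |c| = 0 := by nlinarith
    simpa using this

/-- A rational polynomial evaluated at squared eigenvalues, against the `(u,v)` measure, is
rational, if `A` is an integer matrix. -/
theorem eval_sum_rat (A : Matrix V V ℝ) (hA : A.IsSymm) (D : Diag A)
    (hZ : ∀ k u v, ∃ z : ℤ, (A ^ k) u v = z) (P : ℚ[X]) (u v : V) :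
    ∃ r : ℚ, ∑ j, (P.map (algebraMap ℚ ℝ)).eval (D.th j ^ 2) * (D.q j u * D.q j v) = r := by
  choose z hz using hZ
  refine ⟨∑ k ∈ range (P.natDegree + 1), P.coeff k * z (2 * k) u v, ?_⟩
  have h1 : ∀ j, (P.map (algebraMap ℚ ℝ)).eval (D.th j ^ 2) * (D.q j u * D.q j v)
      = ∑ k ∈ range (P.natDegree + 1), (P.coeff k : ℝ) * (D.th j ^ (2 * k) * (D.q j u * D.q j v)) := by
    intro j
    rw [Polynomial.eval_map, Polynomial.eval₂_eq_sum_range, Finset.sum_mul]
    refine Finset.sum_congr rfl fun k _ => ?_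
    simp only [eq_ratCast]
    rw [← pow_mul]; ring
  rw [Finset.sum_congr rfl fun j _ => h1 j, Finset.sum_comm]
  push_cast
  refine Finset.sum_congr rfl fun k _ => ?_
  rw [← Finset.mul_sum, ← D.pow hA, hz]

/-- The squares of the eigenvalues in the support of `a`. -/
noncomputable def supp {A : Matrix V V ℝ} (D : Diag A) (a : V) : Finset ℝ :=
  (univ.filter (fun j => D.q j a ≠ 0)).image (fun j => D.th j ^ 2)

theorem mem_supp {A : Matrix V V ℝ} (D : Diag A) (a : V) (x : ℝ) :
    x ∈ supp D a ↔ ∃ j, D.q j a ≠ 0 ∧ D.th j ^ 2 = x := by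
  simp [supp]

/-- The sum of the distinct squared support eigenvalues is rational. -/
theorem supp_sum_rat (A : Matrix V V ℝ) (hA : A.IsSymm) (D : Diag A)
    (hZ : ∀ k u v, ∃ z : ℤ, (A ^ k) u v = z) (a : V) (hne : (supp D a).Nonempty) :
    ∃ r : ℚ, ∑ x ∈ supp D a, x = r := by
  by_contra hcon
  set R := supp D a with hR
  have hx : (∑ x ∈ R, x) ∉ (Submodule.span ℚ {(1 : ℝ)}) := by
    intro hmem
    rw [Submodule.mem_span_singleton] at hmem
    obtain ⟨r, hr⟩ := hmem
    exact hcon ⟨r, by rw [← hr]; simp [Rat.smul_def]⟩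
  obtain ⟨φ, hφ1, hφ2⟩ := Submodule.exists_dual_map_eq_bot_of_notMem hx inferInstance
  have hφ0 : φ 1 = 0 := by
    have : φ 1 ∈ (Submodule.span ℚ {(1 : ℝ)}).map φ :=
      Submodule.mem_map_of_mem (Submodule.mem_span_singleton_self _)
    rw [hφ2] at this
    simpa using this
  choose z hz using hZ
  let f : ℝ[X] := ∏ x ∈ R, (X - C x)
  have hfmonic : f.Monic := Polynomial.monic_prod_of_monic _ _ fun x _ => monic_X_sub_C x
  have hfdeg : f.natDegree = R.card := by
    simp only [f]
    rw [Polynomial.natDegree_prod_of_monic _ _ fun x _ => monic_X_sub_C x]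
    simp
  have hf0 : ∀ x ∈ R, f.eval x = 0 := by
    intro x hx
    simp only [f]
    rw [Polynomial.eval_prod]
    exact Finset.prod_eq_zero hx (by simp)
  have hcard : 0 < R.card := Finset.card_pos.mpr hne
  -- the polynomial obtained by applying `φ` to the coefficients
  let g : ℝ[X] := ∑ k ∈ range R.card, C ((φ (f.coeff k) : ℚ) : ℝ) * X ^ k
  have hgdeg : g.degree < R.card := by
    apply lt_of_le_of_lt (Polynomial.degree_sum_le _ _)
    rw [Finset.sup_lt_iff (WithBot.bot_lt_coe _)]
    intro k hk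
    refine lt_of_le_of_lt (Polynomial.degree_C_mul_X_pow_le _ _) ?_
    exact_mod_cast Finset.mem_range.mp hk
  have hgcoeff : ∀ k < R.card, g.coeff k = ((φ (f.coeff k) : ℚ) : ℝ) := by
    intro k hk
    simp only [g, Polynomial.finsetSum_coeff, Polynomial.coeff_C_mul_X_pow]
    simp [hk]
  have hgeval : ∀ x : ℝ, g.eval x = ∑ k ∈ range (R.card + 1), ((φ (f.coeff k) : ℚ) : ℝ) * x ^ k := by
    intro x
    rw [Finset.sum_range_succ]
    have : f.coeff R.card = 1 := by rw [← hfdeg]; exact hfmonic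
    rw [this, hφ0]
    simp [g, Polynomial.eval_finsetSum]
  -- `f` annihilates
  have hfa : ∀ v, ∑ k ∈ range (R.card + 1), f.coeff k * (z (2 * k) a v : ℝ) = 0 := by
    intro v
    have h1 : ∀ k, (z (2 * k) a v : ℝ) = ∑ j, (D.th j ^ 2) ^ k * (D.q j a * D.q j v) := by
      intro k; rw [← hz, D.pow hA]; exact Finset.sum_congr rfl fun j _ => by rw [pow_mul]
    calc ∑ k ∈ range (R.card + 1), f.coeff k * (z (2 * k) a v : ℝ)
        = ∑ j, f.eval (D.th j ^ 2) * (D.q j a * D.q j v) := by
          simp only [h1, Finset.mul_sum]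
          rw [Finset.sum_comm]
          refine Finset.sum_congr rfl fun j _ => ?_
          rw [Polynomial.eval_eq_sum_range, hfdeg, Finset.sum_mul]
          exact Finset.sum_congr rfl fun k _ => by ring
      _ = 0 := by
          apply Finset.sum_eq_zero
          intro j _
          by_cases hj : D.q j a = 0
          · simp [hj]
          · rw [hf0 _ ((mem_supp D a _).mpr ⟨j, hj, rfl⟩), zero_mul]
  -- so does `g`
  have hga : ∀ v, ∑ k ∈ range (R.card + 1), ((φ (f.coeff k) : ℚ) : ℝ) * (z (2 * k) a v : ℝ) = 0 := by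
    intro v
    have h1 := congrArg φ (hfa v)
    rw [map_sum, map_zero] at h1
    have h2 : ∀ k, φ (f.coeff k * (z (2 * k) a v : ℝ)) = φ (f.coeff k) * (z (2 * k) a v : ℚ) := by
      intro k
      have : f.coeff k * (z (2 * k) a v : ℝ) = ((z (2 * k) a v : ℚ)) • f.coeff k := by
        rw [Rat.smul_def]; push_cast; ring
      rw [this, map_smul, smul_eq_mul, mul_comm]
    simp only [h2] at h1
    exact_mod_cast h1
  have hgroot : ∀ x ∈ R, g.eval x = 0 := by
    intro x hx
    obtain ⟨i, hi, rfl⟩ := (mem_supp D a x).mp hx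
    have h1 : ∀ v, ∑ j, g.eval (D.th j ^ 2) * (D.q j a * D.q j v) = 0 := by
      intro v
      rw [← hga v]
      have h1 : ∀ k, (z (2 * k) a v : ℝ) = ∑ j, (D.th j ^ 2) ^ k * (D.q j a * D.q j v) := by
        intro k; rw [← hz, D.pow hA]; exact Finset.sum_congr rfl fun j _ => by rw [pow_mul]
      simp only [h1, hgeval, Finset.mul_sum, Finset.sum_mul]
      rw [Finset.sum_comm]
      exact Finset.sum_congr rfl fun k _ => Finset.sum_congr rfl fun j _ => by ring
    have h2 : ∑ v, D.q i v * ∑ j, g.eval (D.th j ^ 2) * (D.q j a * D.q j v)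
        = g.eval (D.th i ^ 2) * D.q i a := by
      simp only [Finset.mul_sum]
      rw [Finset.sum_comm]
      have h3 : ∀ j, ∑ v, D.q i v * (g.eval (D.th j ^ 2) * (D.q j a * D.q j v))
          = g.eval (D.th j ^ 2) * D.q j a * (if i = j then 1 else 0) := by
        intro j
        rw [← D.ortho i j, Finset.mul_sum]
        exact Finset.sum_congr rfl fun v _ => by ring
      simp [h3]
    simp only [h1, mul_zero, Finset.sum_const_zero] at h2
    rcases mul_eq_zero.mp h2.symm with h | h
    · exact h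
    · exact absurd h hi
  have hg0 : g = 0 := Polynomial.eq_zero_of_degree_lt_of_eval_finset_eq_zero R hgdeg hgroot
  have h5 := hgcoeff (R.card - 1) (by omega)
  rw [hg0, Polynomial.coeff_zero] at h5
  have h6 : f.coeff (R.card - 1) = - ∑ x ∈ R, x :=
    Polynomial.prod_X_sub_C_coeff_card_pred R (fun x => x) hcard
  rw [h6, map_neg] at h5
  apply hφ1
  have : ((φ (∑ x ∈ R, x) : ℚ) : ℝ) = 0 := by push_cast at h5; linarith
  exact_mod_cast this

end Pool.Agent.Q105.FR
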