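import Pool.Agent.Q105.FR.Even

namespace Pool.Agent.Q105.FR

open Matrix Finset Polynomial

variable {V : Type*} [Fintype V] [DecidableEq V]

/-- Even distance: impossible when exactly one walk of length `d` joins `a` and `b`. -/
theorem even_case (A : Matrix V V ℝ) (hAs : A.IsSymm) (D : Diag A)
    (hZ : ∀ k u v, ∃ z : ℤ, (A ^ k) u v = z) (a b : V) (hab : a ≠ b)
    (τ : ℝ) (hτ : 0 < τ) (α β : ℂ) (hα : α ≠ 0) (hβ : β ≠ 0)
    (hR : Rel A a b τ α β) (s : V → ℝ) (hs : ∀ u, s u = 1 ∨ s u = -1)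
    (hA : ∀ u v, s u = s v → A u v = 0) (ha : s a = 1) (hb : s b = 1)
    (d : ℕ) (hd : 0 < d) (hone : (A ^ d) a b = 1) : False := by
  have key : ∀ j, (Real.cos (τ * D.th j) : ℂ) * D.q j a = α * D.q j a + β * D.q j b ∧
      Real.sin (τ * D.th j) * D.q j a = 0 := by
    intro j
    have h1 := hR (D.th j) (D.q j) (D.eig j)
    have h2 := hR (-D.th j) _ (flip_eig A s hs hA (D.th j) (D.q j) (D.eig j))
    have e1 : Complex.exp ((τ * D.th j : ℝ) * Complex.I)
        = Real.cos (τ * D.th j) + Real.sin (τ * D.th j) * Complex.I := by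
      rw [Complex.exp_mul_I]; push_cast; ring
    have e2 : Complex.exp ((τ * -D.th j : ℝ) * Complex.I)
        = Real.cos (τ * D.th j) - Real.sin (τ * D.th j) * Complex.I := by
      rw [Complex.exp_mul_I]
      have : ((τ * -D.th j : ℝ) : ℂ) = -((τ * D.th j : ℝ) : ℂ) := by push_cast; ring
      rw [this, Complex.cos_neg, Complex.sin_neg]; push_cast; ring
    rw [e1] at h1
    rw [e2] at h2
    simp only [ha, hb] at h2
    constructor
    · push_cast at h1 h2 ⊢
      linear_combination (h1 + h2) / 2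
    · have h3 : ((Real.sin (τ * D.th j) : ℝ) : ℂ) * Complex.I * D.q j a = 0 := by
        push_cast at h1 h2 ⊢
        linear_combination (h1 - h2) / 2
      rcases mul_eq_zero.mp h3 with h | h
      · rcases mul_eq_zero.mp h with h | h
        · have : Real.sin (τ * D.th j) = 0 := by exact_mod_cast h
          rw [this, zero_mul]
        · exact absurd h Complex.I_ne_zero
      · have : D.q j a = 0 := by exact_mod_cast h
        rw [this, mul_zero]
  set ε : V → ℝ := fun j => Real.cos (τ * D.th j) with hε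
  -- `α` and `β` are real
  have hbb : ∑ j, D.q j b ^ 2 = 1 := sum_sq A D b
  have haa : ∑ j, D.q j a ^ 2 = 1 := sum_sq A D a
  have hab0 : ∑ j, D.q j a * D.q j b = 0 := by rw [D.complete]; simp [hab]
  have hαr : α = ((∑ j, ε j * (D.q j a * D.q j a) : ℝ) : ℂ) := by
    have h1 : ∀ j, ((ε j * (D.q j a * D.q j a) : ℝ) : ℂ)
        = α * ((D.q j a ^ 2 : ℝ) : ℂ) + β * ((D.q j a * D.q j b : ℝ) : ℂ) := by
      intro j
      have := (key j).1
      push_cast at this ⊢
      simp only [hε]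
      push_cast
      linear_combination (D.q j a : ℂ) * this
    rw [Complex.ofReal_sum, Finset.sum_congr rfl fun j _ => h1 j, Finset.sum_add_distrib,
      ← Finset.mul_sum, ← Finset.mul_sum, ← Complex.ofReal_sum, ← Complex.ofReal_sum, haa, hab0]
    simp
  have hβr : β = ((∑ j, ε j * (D.q j a * D.q j b) : ℝ) : ℂ) := by
    have h1 : ∀ j, ((ε j * (D.q j a * D.q j b) : ℝ) : ℂ)
        = α * ((D.q j a * D.q j b : ℝ) : ℂ) + β * ((D.q j b ^ 2 : ℝ) : ℂ) := by
      intro j
      have := (key j).1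
      push_cast at this ⊢
      simp only [hε]
      push_cast
      linear_combination (D.q j b : ℂ) * this
    rw [Complex.ofReal_sum, Finset.sum_congr rfl fun j _ => h1 j, Finset.sum_add_distrib,
      ← Finset.mul_sum, ← Finset.mul_sum, ← Complex.ofReal_sum, ← Complex.ofReal_sum, hbb, hab0]
    simp
  set x : ℝ := ∑ j, ε j * (D.q j a * D.q j a) with hx
  set y : ℝ := ∑ j, ε j * (D.q j a * D.q j b) with hy
  clear_value x y
  have hx0 : x ≠ 0 := by rintro h; rw [h] at hαr; exact hα (by simpa using hαr)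
  have hy0 : y ≠ 0 := by rintro h; rw [h] at hβr; exact hβ (by simpa using hβr)
  have hrel : ∀ j, ε j * D.q j a = x * D.q j a + y * D.q j b := by
    intro j
    have := (key j).1
    rw [hαr, hβr] at this
    exact_mod_cast this
  have hsq : ∀ j, (ε j * D.q j a) ^ 2 = D.q j a ^ 2 := by
    intro j
    have h1 := (key j).2
    have h2 := Real.sin_sq_add_cos_sq (τ * D.th j)
    simp only [hε]
    have : (Real.cos (τ * D.th j) * D.q j a) ^ 2
        = D.q j a ^ 2 - (Real.sin (τ * D.th j) * D.q j a) ^ 2 := by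
      linear_combination (D.q j a ^ 2) * h2
    rw [this, h1]; ring
  have hxy : x ^ 2 + y ^ 2 = 1 := by
    have h1 : ∑ j, D.q j a ^ 2 = ∑ j, (x ^ 2 * D.q j a ^ 2 + 2 * x * y * (D.q j a * D.q j b)
        + y ^ 2 * D.q j b ^ 2) := by
      refine Finset.sum_congr rfl fun j _ => ?_
      have h3 := hsq j
      rw [hrel j] at h3
      linear_combination -h3
    rw [Finset.sum_add_distrib, Finset.sum_add_distrib, ← Finset.mul_sum, ← Finset.mul_sum,
      ← Finset.mul_sum, haa, hbb, hab0] at h1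
    linarith
  have hlin : ∀ j, y * (D.q j a ^ 2 - D.q j b ^ 2) = 2 * x * (D.q j a * D.q j b) := by
    intro j
    have h3 := hsq j
    rw [hrel j] at h3
    apply mul_left_cancel₀ hy0
    linear_combination -h3 - (D.q j a ^ 2) * hxy + 2 * (D.q j a ^ 2) * hxy
  -- the integer `c`
  obtain ⟨za, hza⟩ := hZ d a a
  obtain ⟨zb, hzb⟩ := hZ d b b
  have hc : y * ((za - zb : ℤ) : ℝ) = 2 * x := by
    have h1 : ∑ j, D.th j ^ d * (y * (D.q j a ^ 2 - D.q j b ^ 2))
        = ∑ j, D.th j ^ d * (2 * x * (D.q j a * D.q j b)) :=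
      Finset.sum_congr rfl fun j _ => by rw [hlin j]
    have h2 : ∑ j, D.th j ^ d * (y * (D.q j a ^ 2 - D.q j b ^ 2))
        = y * ((A ^ d) a a - (A ^ d) b b) := by
      rw [D.pow hAs, D.pow hAs, ← Finset.sum_sub_distrib, Finset.mul_sum]
      exact Finset.sum_congr rfl fun j _ => by ring
    have h3 : ∑ j, D.th j ^ d * (2 * x * (D.q j a * D.q j b)) = 2 * x * (A ^ d) a b := by
      rw [D.pow hAs, Finset.mul_sum]
      exact Finset.sum_congr rfl fun j _ => by ring
    rw [h2, h3, hone, hza, hzb] at h1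
    push_cast
    linarith
  -- squared eigenvalues in the support are multiples of `ρ`
  set ρ : ℝ := (Real.pi / τ) ^ 2 with hρ
  have hmult : ∀ w ∈ supp D a, ∃ n : ℕ, w = ρ * n := by
    intro w hw
    obtain ⟨j, hj, rfl⟩ := (mem_supp D a w).mp hw
    have h1 := (key j).2
    have h2 : Real.sin (τ * D.th j) = 0 := by
      rcases mul_eq_zero.mp h1 with h | h
      · exact h
      · exact absurd h hj
    rw [Real.sin_eq_zero_iff] at h2
    obtain ⟨n, hn⟩ := h2
    refine ⟨n.natAbs ^ 2, ?_⟩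
    have h3 : D.th j = n * (Real.pi / τ) := by field_simp; linarith
    have h4 : ((n.natAbs ^ 2 : ℕ) : ℝ) = (n : ℝ) ^ 2 := by
      rw [Nat.cast_pow, Nat.cast_natAbs, Int.cast_abs, sq_abs]
    rw [h4, h3, hρ]; ring
  have hne : (supp D a).Nonempty := by
    by_contra hcon
    rw [Finset.not_nonempty_iff_eq_empty] at hcon
    have : ∀ j, D.q j a = 0 := by
      intro j
      by_contra hj
      have := (mem_supp D a (D.th j ^ 2)).mpr ⟨j, hj, rfl⟩
      rw [hcon] at this
      simp at this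
    simp [this] at haa
  choose! nn hnn using hmult
  obtain ⟨r, hr⟩ := supp_sum_rat A hAs D hZ a hne
  have hsum : ρ * ((∑ w ∈ supp D a, nn w : ℕ) : ℝ) = r := by
    rw [← hr]; push_cast; rw [Finset.mul_sum]
    exact Finset.sum_congr rfl fun w hw => (hnn w hw).symm
  have hpos : (∑ w ∈ supp D a, nn w) ≠ 0 := by
    intro h0
    have h1 : ∀ j, D.q j a ≠ 0 → D.th j = 0 := by
      intro j hj
      have hm := (mem_supp D a (D.th j ^ 2)).mpr ⟨j, hj, rfl⟩
      have h2 := Finset.sum_eq_zero_iff.mp h0 _ hm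
      have h3 := hnn _ hm
      rw [h2] at h3
      have : D.th j ^ 2 = 0 := by simpa using h3
      exact pow_eq_zero_iff (two_ne_zero) |>.mp this
    have h4 : (A ^ d) a b = 0 := by
      rw [D.pow hAs]
      apply Finset.sum_eq_zero
      intro j _
      by_cases hj : D.q j a = 0
      · simp [hj]
      · rw [h1 j hj, zero_pow (by omega), zero_mul]
    rw [h4] at hone
    exact zero_ne_one hone
  have hρrat : ∃ ρ' : ℚ, ρ = ρ' := by
    refine ⟨r / (∑ w ∈ supp D a, nn w : ℕ), ?_⟩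
    have : ((∑ w ∈ supp D a, nn w : ℕ) : ℝ) ≠ 0 := by exact_mod_cast hpos
    rw [Rat.cast_div, Rat.cast_natCast]
    field_simp
    exact hsum
  obtain ⟨ρ', hρ'⟩ := hρrat
  -- interpolation
  let R' : Finset ℚ := (supp D a).image (fun w => ρ' * nn w)
  let E : ℚ → ℚ := fun t => if Real.cos (τ * Real.sqrt (t : ℝ)) = 1 then 1 else -1
  let P : ℚ[X] := Lagrange.interpolate R' id E
  have hP : ∀ j, D.q j a ≠ 0 → (P.map (algebraMap ℚ ℝ)).eval (D.th j ^ 2) = ε j := by
    intro j hj
    have hm := (mem_supp D a (D.th j ^ 2)).mpr ⟨j, hj, rfl⟩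
    have h1 : D.th j ^ 2 = ((ρ' * nn (D.th j ^ 2) : ℚ) : ℝ) := by
      push_cast; rw [← hρ']; exact hnn _ hm
    have h2 : (ρ' * nn (D.th j ^ 2) : ℚ) ∈ R' := Finset.mem_image.mpr ⟨_, hm, rfl⟩
    have h3 : P.eval (ρ' * nn (D.th j ^ 2) : ℚ) = E (ρ' * nn (D.th j ^ 2) : ℚ) :=
      Lagrange.eval_interpolate_at_node (v := id) E (Function.injective_id.injOn) h2
    have h4 : (P.map (algebraMap ℚ ℝ)).eval (D.th j ^ 2)
        = ((E (ρ' * nn (D.th j ^ 2) : ℚ) : ℚ) : ℝ) := by
      rw [← h3]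
      conv_lhs => rw [h1]
      rw [Polynomial.eval_map, ← eq_ratCast (algebraMap ℚ ℝ), Polynomial.eval₂_at_apply]
      rfl
    rw [h4]
    have h5 : Real.cos (τ * Real.sqrt ((ρ' * nn (D.th j ^ 2) : ℚ) : ℝ)) = ε j := by
      have h8 : τ * |D.th j| = |τ * D.th j| := by rw [abs_mul, abs_of_pos hτ]
      rw [← h1, Real.sqrt_sq_eq_abs, h8, Real.cos_abs]
    have h6 : ε j = 1 ∨ ε j = -1 := by
      have := hsq j
      rw [mul_pow] at this
      have h7 : ε j ^ 2 = 1 := by
        have h8 : D.q j a ^ 2 ≠ 0 := pow_ne_zero 2 hj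
        exact mul_right_cancel₀ h8 (by rw [this, one_mul])
      have h9 : (ε j - 1) * (ε j + 1) = 0 := by linear_combination h7
      rcases mul_eq_zero.mp h9 with h | h
      · left; linarith
      · right; linarith
    simp only [E]
    rw [h5]
    rcases h6 with h6 | h6
    · rw [h6]; simp
    · rw [h6]; norm_num
  obtain ⟨Y, hY⟩ := eval_sum_rat A hAs D hZ P a b
  have hyY : y = Y := by
    rw [← hY, hy]
    refine Finset.sum_congr rfl fun j _ => ?_
    by_cases hj : D.q j a = 0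
    · simp [hj]
    · rw [hP j hj]
  -- conclusion
  have hfin : ((za - zb : ℤ) : ℝ) ^ 2 + 4 = (2 / y) ^ 2 := by
    have h1 : ((za - zb : ℤ) : ℝ) = 2 * x / y := by field_simp; linarith
    rw [h1]; field_simp; linarith
  have hQ : ((za - zb : ℤ) * (za - zb : ℤ) + 4 : ℚ) = (2 / Y) * (2 / Y) := by
    rw [hyY] at hfin
    have : (((za - zb : ℤ) * (za - zb : ℤ) + 4 : ℚ) : ℝ) = (((2 / Y) * (2 / Y) : ℚ) : ℝ) := by
      push_cast at hfin ⊢
      linarith
    exact_mod_cast this
  have hS : IsSquare (((za - zb) * (za - zb) + 4 : ℤ) : ℚ) := ⟨2 / Y, by push_cast at hQ ⊢; exact hQ⟩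
  rw [Rat.isSquare_intCast_iff] at hS
  obtain ⟨m, hm⟩ := hS
  have hc0 := sq_add_four (za - zb) m hm.symm
  rw [hc0] at hc
  apply hx0
  push_cast at hc
  linarith

end Pool.Agent.Q105.FR
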