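import Mathlib

namespace Pool.Agent.Q105.FR

open Matrix Finset

variable {V : Type*} [Fintype V] [DecidableEq V]

/-- A real orthonormal system diagonalising `A`: `th j` is the eigenvalue and `q j` the vector. -/
structure Diag (A : Matrix V V ℝ) where
  th : V → ℝ
  q : V → V → ℝ
  eig : ∀ j, A *ᵥ q j = th j • q j
  complete : ∀ u v, ∑ j, q j u * q j v = if u = v then 1 else 0
  ortho : ∀ i j, ∑ u, q i u * q j u = if i = j then 1 else 0

theorem exists_diag (A : Matrix V V ℝ) (hA : A.IsSymm) : Nonempty (Diag A) := by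
  have hH : A.IsHermitian := by
    rw [Matrix.IsHermitian, Matrix.conjTranspose_eq_transpose_of_trivial]; exact hA
  refine ⟨⟨hH.eigenvalues, fun j => ⇑(hH.eigenvectorBasis j), ?_, ?_, ?_⟩⟩
  · intro j; exact hH.mulVec_eigenvectorBasis j
  · intro u v
    have h := Unitary.coe_mul_star_self hH.eigenvectorUnitary
    rw [Unitary.coe_star] at h
    have h2 := congrFun (congrFun h u) v
    rw [Matrix.mul_apply, Matrix.one_apply] at h2
    rw [← h2]
    refine Finset.sum_congr rfl fun j _ => ?_
    rw [Matrix.star_apply, hH.eigenvectorUnitary_apply, hH.eigenvectorUnitary_apply]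
    simp
  · intro i j
    have h := Unitary.coe_star_mul_self hH.eigenvectorUnitary
    have h2 := congrFun (congrFun h i) j
    rw [Matrix.mul_apply, Matrix.one_apply] at h2
    rw [← h2]
    refine Finset.sum_congr rfl fun u _ => ?_
    rw [Matrix.star_apply, hH.eigenvectorUnitary_apply, hH.eigenvectorUnitary_apply]
    simp

theorem Diag.pow {A : Matrix V V ℝ} (hA : A.IsSymm) (D : Diag A) (k : ℕ) (u v : V) :
    (A ^ k) u v = ∑ j, D.th j ^ k * (D.q j u * D.q j v) := by
  induction k generalizing v with
  | zero => simp [Matrix.one_apply, D.complete]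
  | succ k ih =>
    rw [pow_succ, Matrix.mul_apply]
    have h1 : ∀ j, ∑ w, A v w * D.q j w = D.th j * D.q j v := by
      intro j
      have := congrFun (D.eig j) v
      simpa [Matrix.mulVec, dotProduct] using this
    calc ∑ w, (A ^ k) u w * A w v = ∑ w, ∑ j, D.th j ^ k * (D.q j u * (A v w * D.q j w)) := by
          refine Finset.sum_congr rfl fun w _ => ?_
          rw [ih, Finset.sum_mul]
          refine Finset.sum_congr rfl fun j _ => ?_
          have : A w v = A v w := by
            have := congrFun (congrFun hA v) w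
            simpa [Matrix.transpose_apply] using this
          rw [this]; ring
      _ = ∑ j, D.th j ^ (k + 1) * (D.q j u * D.q j v) := by
          rw [Finset.sum_comm]
          refine Finset.sum_congr rfl fun j _ => ?_
          rw [← Finset.mul_sum, ← Finset.mul_sum, h1]; ring

/-- the exponential acts on an eigenvector as expected -/
theorem exp_mulVec (M : Matrix V V ℂ) (c : ℂ) (w : V → ℂ) (h : M *ᵥ w = c • w) :
    NormedSpace.exp M *ᵥ w = Complex.exp c • w := by
  let _i1 : NormedRing (Matrix V V ℂ) := Matrix.linftyOpNormedRing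
  let _i2 : NormedAlgebra ℂ (Matrix V V ℂ) := Matrix.linftyOpNormedAlgebra
  have hpow : ∀ n : ℕ, (M ^ n) *ᵥ w = c ^ n • w := by
    intro n
    induction n with
    | zero => simp
    | succ n ih => rw [pow_succ', ← Matrix.mulVec_mulVec, ih, Matrix.mulVec_smul, h, smul_smul,
        pow_succ]
  have hs : HasSum (fun n : ℕ => ((n.factorial : ℂ)⁻¹) • M ^ n) (NormedSpace.exp M) := by
    have := NormedSpace.exp_series_hasSum_exp' (𝕂 := ℂ) M
    exact this
  let L : Matrix V V ℂ →ₗ[ℂ] (V → ℂ) :=
    { toFun := fun N => N *ᵥ w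
      map_add' := fun a b => Matrix.add_mulVec a b w
      map_smul' := fun a b => Matrix.smul_mulVec a b w }
  have hL : Continuous L := L.continuous_of_finiteDimensional
  have hs2 := hs.map L hL
  have hs3 : HasSum (fun n : ℕ => ((n.factorial : ℂ)⁻¹ * c ^ n) • w) (NormedSpace.exp M *ᵥ w) := by
    have e : (fun n : ℕ => ((n.factorial : ℂ)⁻¹ * c ^ n) • w)
        = (fun n : ℕ => L (((n.factorial : ℂ)⁻¹) • M ^ n)) := by
      funext n
      show _ = (((n.factorial : ℂ)⁻¹) • M ^ n) *ᵥ w
      rw [Matrix.smul_mulVec, hpow, smul_smul]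
    rw [e]
    exact hs2
  have hs4 : HasSum (fun n : ℕ => ((n.factorial : ℂ)⁻¹ * c ^ n) • w) (Complex.exp c • w) := by
    have h5 : HasSum (fun n : ℕ => ((n.factorial : ℂ)⁻¹) • c ^ n) (NormedSpace.exp c) := by
      exact NormedSpace.exp_series_hasSum_exp' (𝕂 := ℂ) c
    rw [← Complex.exp_eq_exp_ℂ] at h5
    have := h5.smul_const w
    simpa using this
  exact hs3.unique hs4

end Pool.Agent.Q105.FR
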